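import Mathlib

/-!
# A del Pezzo surface of degree one with fifteen generalized Eckardt points

Over an algebraically closed field `k` of characteristic two the sextic
`w² + y³ w + z³ + x⁵ y = 0` in the weighted projective space `P(1,1,2,3)` is smooth, so it is a
del Pezzo surface of degree one. It has `240` exceptional curves, as every del Pezzo surface of
degree one, and each of the fifteen points `(1 : 0 : u² : u³)` with `u ^ 15 = 1` lies on exactly
sixteen of them.

Every del Pezzo surface of degree one over `k` is a smooth sextic hypersurface in `P(1,1,2,3)`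
(which does not contain the two singular points of `P(1,1,2,3)`), every such sextic is a del Pezzo
surface of degree one, and its exceptional curves are the curves on it with equations
`z = Q(x, y)`, `w = C(x, y)`, where `Q` and `C` are binary forms of degrees two and three.
-/

set_option autoImplicit false

open MvPolynomial

namespace Pool.Agent.Results.MP_3c244b_ag.EckardtPoints

/-- Proportionality of nonzero vectors `(x, y, z, w)` with the weights `(1, 1, 2, 3)`. -/
def weightedSetoid (k : Type*) [Field k] : Setoid {v : Fin 4 → k // v ≠ 0} where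
  r v v' := ∃ t : k, t ≠ 0 ∧
    v'.1 = ![t * v.1 0, t * v.1 1, t ^ 2 * v.1 2, t ^ 3 * v.1 3]
  iseqv := by
    refine ⟨fun v => ⟨1, one_ne_zero, ?_⟩, ?_, ?_⟩
    · funext i
      fin_cases i <;> simp
    · rintro v v' ⟨t, ht, h⟩
      refine ⟨t⁻¹, inv_ne_zero ht, ?_⟩
      rw [h]
      funext i
      fin_cases i <;> simp <;> field_simp
    · rintro v v' v'' ⟨t, ht, h⟩ ⟨s, hs, h'⟩
      refine ⟨s * t, mul_ne_zero hs ht, ?_⟩
      rw [h', h]
      funext i
      fin_cases i <;> simp <;> ring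

/-- The points of the weighted projective space `P(1, 1, 2, 3)` over `k`. -/
def WP (k : Type*) [Field k] : Type _ := Quotient (weightedSetoid k)

/-- The point `(v 0 : v 1 : v 2 : v 3)` of `P(1, 1, 2, 3)`. -/
def WP.mk {k : Type*} [Field k] (v : Fin 4 → k) (hv : v ≠ 0) : WP k :=
  Quotient.mk (weightedSetoid k) ⟨v, hv⟩

/-- The zero locus of `F` in `P(1, 1, 2, 3)`. -/
def zeroLocus {k : Type*} [Field k] (F : MvPolynomial (Fin 4) k) : Set (WP k) :=
  {P | ∃ (v : Fin 4 → k) (hv : v ≠ 0), P = WP.mk v hv ∧ eval v F = 0}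

/-- `F = 0` is a smooth sextic surface in `P(1, 1, 2, 3)`: `F` is weighted homogeneous of degree
six, the two singular points `(0:0:1:0)` and `(0:0:0:1)` of `P(1, 1, 2, 3)` do not lie on it, and
at each of its points some derivative of `F` does not vanish. Over an algebraically closed field
these are exactly the del Pezzo surfaces of degree one. -/
def IsDelPezzoOne {k : Type*} [Field k] (F : MvPolynomial (Fin 4) k) : Prop :=
  IsWeightedHomogeneous (![1, 1, 2, 3] : Fin 4 → ℕ) F 6 ∧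
  eval ![0, 0, 1, 0] F ≠ 0 ∧ eval ![0, 0, 0, 1] F ≠ 0 ∧
  ∀ v : Fin 4 → k, v ≠ 0 → eval v F = 0 → ∃ i, eval v (pderiv i F) ≠ 0

/-- The vector `(x, y, Q(x, y), C(x, y))` for the binary forms `Q` and `C` of degrees two and
three with coefficients `q` and `c`. -/
def graphVec {k : Type*} [Field k] (q : Fin 3 → k) (c : Fin 4 → k) (x y : k) : Fin 4 → k :=
  ![x, y, q 0 * x ^ 2 + q 1 * x * y + q 2 * y ^ 2,
    c 0 * x ^ 3 + c 1 * x ^ 2 * y + c 2 * x * y ^ 2 + c 3 * y ^ 3]

/-- The curve `z = Q(x, y)`, `w = C(x, y)` in `P(1, 1, 2, 3)`. -/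
def graphCurve {k : Type*} [Field k] (q : Fin 3 → k) (c : Fin 4 → k) : Set (WP k) :=
  {P | ∃ (x y : k) (h : graphVec q c x y ≠ 0), P = WP.mk (graphVec q c x y) h}

/-- The exceptional curves of the sextic `F = 0`: the curves `z = Q(x, y)`, `w = C(x, y)`
contained in it. -/
def IsExceptional {k : Type*} [Field k] (F : MvPolynomial (Fin 4) k) (E : Set (WP k)) : Prop :=
  (∃ (q : Fin 3 → k) (c : Fin 4 → k), E = graphCurve q c) ∧ E ⊆ zeroLocus F

/-- The generalized Eckardt points of the sextic `F = 0` over a field of characteristic two: the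
points which lie on (exactly) sixteen exceptional curves. -/
def IsEckardt {k : Type*} [Field k] (F : MvPolynomial (Fin 4) k) (P : WP k) : Prop :=
  P ∈ zeroLocus F ∧ {E : Set (WP k) | IsExceptional F E ∧ P ∈ E}.ncard = 16

/-- The sextic `w² + y³ w + z³ + x⁵ y`. -/
noncomputable def sextic (k : Type*) [Field k] : MvPolynomial (Fin 4) k :=
  X 3 ^ 2 + X 1 ^ 3 * X 3 + X 2 ^ 3 + X 0 ^ 5 * X 1


section aux

variable {k : Type*} [Field k]

theorem mk_eq_mk {v v' : Fin 4 → k} (hv : v ≠ 0) (hv' : v' ≠ 0) :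
    WP.mk v hv = WP.mk v' hv' ↔
      ∃ t : k, t ≠ 0 ∧ v' = ![t * v 0, t * v 1, t ^ 2 * v 2, t ^ 3 * v 3] := by
  constructor
  · intro h
    exact Quotient.exact (s := weightedSetoid k) h
  · intro h
    exact Quotient.sound (s := weightedSetoid k) h

theorem eval_sextic (v : Fin 4 → k) :
    eval v (sextic k) = v 3 ^ 2 + v 1 ^ 3 * v 3 + v 2 ^ 3 + v 0 ^ 5 * v 1 := by
  simp [sextic]

theorem mk_mem_zeroLocus {v : Fin 4 → k} (hv : v ≠ 0) :
    WP.mk v hv ∈ zeroLocus (sextic k) ↔ eval v (sextic k) = 0 := by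
  constructor
  · rintro ⟨v', hv', h, h0⟩
    obtain ⟨t, ht, hh⟩ := (mk_eq_mk hv hv').1 h
    rw [eval_sextic] at h0 ⊢
    rw [hh] at h0
    simp at h0
    have h1 : t ^ 6 * (v 3 ^ 2 + v 1 ^ 3 * v 3 + v 2 ^ 3 + v 0 ^ 5 * v 1) = 0 := by
      linear_combination h0
    exact (mul_eq_zero.1 h1).resolve_left (pow_ne_zero _ ht)
  · intro h
    exact ⟨v, hv, rfl, h⟩

theorem graphVec_ne_zero (q : Fin 3 → k) (c : Fin 4 → k) (x y : k) (h : x ≠ 0 ∨ y ≠ 0) :
    graphVec q c x y ≠ 0 := by
  intro h0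
  have h1 := congrFun h0 0
  have h2 := congrFun h0 1
  simp [graphVec] at h1 h2
  rcases h with h | h
  · exact h h1
  · exact h h2

/-- The seven equations for the coefficients of `Q` and `C`. -/
def Eqs (q : Fin 3 → k) (c : Fin 4 → k) : Prop :=
  c 0 ^ 2 + q 0 ^ 3 = 0 ∧ q 0 ^ 2 * q 1 + 1 = 0 ∧
  c 1 ^ 2 + q 0 ^ 2 * q 2 + q 0 * q 1 ^ 2 = 0 ∧ c 0 + q 1 ^ 3 = 0 ∧
  c 2 ^ 2 + c 1 + q 1 ^ 2 * q 2 + q 0 * q 2 ^ 2 = 0 ∧ c 2 + q 1 * q 2 ^ 2 = 0 ∧
  c 3 ^ 2 + c 3 + q 2 ^ 3 = 0

theorem eval_graphVec (h2 : (2 : k) = 0) (q : Fin 3 → k) (c : Fin 4 → k) (x y : k) :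
    eval (graphVec q c x y) (sextic k) =
      (c 0 ^ 2 + q 0 ^ 3) * x ^ 6 + (q 0 ^ 2 * q 1 + 1) * x ^ 5 * y +
      (c 1 ^ 2 + q 0 ^ 2 * q 2 + q 0 * q 1 ^ 2) * x ^ 4 * y ^ 2 +
      (c 0 + q 1 ^ 3) * x ^ 3 * y ^ 3 +
      (c 2 ^ 2 + c 1 + q 1 ^ 2 * q 2 + q 0 * q 2 ^ 2) * x ^ 2 * y ^ 4 +
      (c 2 + q 1 * q 2 ^ 2) * x * y ^ 5 + (c 3 ^ 2 + c 3 + q 2 ^ 3) * y ^ 6 := by
  rw [eval_sextic]
  simp only [graphVec, Matrix.cons_val_zero, Matrix.cons_val_one, Matrix.cons_val]
  linear_combination (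
      (c 0 * c 1 + q 0 ^ 2 * q 1) * x ^ 5 * y +
      (c 0 * c 2 + q 0 ^ 2 * q 2 + q 0 * q 1 ^ 2) * x ^ 4 * y ^ 2 +
      (c 0 * c 3 + c 1 * c 2 + 3 * q 0 * q 1 * q 2) * x ^ 3 * y ^ 3 +
      (c 1 * c 3 + q 1 ^ 2 * q 2 + q 0 * q 2 ^ 2) * x ^ 2 * y ^ 4 +
      (c 2 * c 3 + q 1 * q 2 ^ 2) * x * y ^ 5) * h2

theorem graphCurve_subset [Infinite k] (h2 : (2 : k) = 0) (q : Fin 3 → k) (c : Fin 4 → k) :
    graphCurve q c ⊆ zeroLocus (sextic k) ↔ Eqs q c := by
  constructor
  · intro h
    have h1 : ∀ x : k, eval (graphVec q c x 1) (sextic k) = 0 := by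
      intro x
      have h0 := graphVec_ne_zero q c x 1 (Or.inr one_ne_zero)
      exact (mk_mem_zeroLocus h0).1 (h ⟨x, 1, h0, rfl⟩)
    let p : Polynomial k :=
      Polynomial.C (c 0 ^ 2 + q 0 ^ 3) * Polynomial.X ^ 6 +
      Polynomial.C (q 0 ^ 2 * q 1 + 1) * Polynomial.X ^ 5 +
      Polynomial.C (c 1 ^ 2 + q 0 ^ 2 * q 2 + q 0 * q 1 ^ 2) * Polynomial.X ^ 4 +
      Polynomial.C (c 0 + q 1 ^ 3) * Polynomial.X ^ 3 +
      Polynomial.C (c 2 ^ 2 + c 1 + q 1 ^ 2 * q 2 + q 0 * q 2 ^ 2) * Polynomial.X ^ 2 +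
      Polynomial.C (c 2 + q 1 * q 2 ^ 2) * Polynomial.X +
      Polynomial.C (c 3 ^ 2 + c 3 + q 2 ^ 3)
    have hp : p = 0 := by
      apply Polynomial.funext
      intro x
      have := h1 x
      rw [eval_graphVec h2] at this
      simp only [p, Polynomial.eval_add, Polynomial.eval_mul, Polynomial.eval_C,
        Polynomial.eval_pow, Polynomial.eval_X, Polynomial.eval_zero]
      linear_combination this
    have hc : ∀ n, p.coeff n = 0 := by
      intro n
      rw [hp, Polynomial.coeff_zero]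
    have e0 := hc 0
    have e1 := hc 1
    have e2 := hc 2
    have e3 := hc 3
    have e4 := hc 4
    have e5 := hc 5
    have e6 := hc 6
    simp only [p, Polynomial.coeff_add, Polynomial.coeff_C_mul, Polynomial.coeff_X_pow,
      Polynomial.coeff_X, Polynomial.coeff_C] at e0 e1 e2 e3 e4 e5 e6
    norm_num at e0 e1 e2 e3 e4 e5 e6
    exact ⟨e6, e5, e4, e3, e2, e1, e0⟩
  · rintro ⟨h6, h5, h4, h3, h2', h1, h0⟩ P ⟨x, y, h, rfl⟩
    rw [mk_mem_zeroLocus, eval_graphVec h2, h6, h5, h4, h3, h2', h1, h0]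
    ring

theorem graphCurve_injective [Infinite k] {q q' : Fin 3 → k} {c c' : Fin 4 → k}
    (h : graphCurve q c = graphCurve q' c') : q = q' ∧ c = c' := by
  have key : ∀ x : k, q 0 * x ^ 2 + q 1 * x + q 2 = q' 0 * x ^ 2 + q' 1 * x + q' 2 ∧
      c 0 * x ^ 3 + c 1 * x ^ 2 + c 2 * x + c 3 =
        c' 0 * x ^ 3 + c' 1 * x ^ 2 + c' 2 * x + c' 3 := by
    intro x
    have h0 := graphVec_ne_zero q c x 1 (Or.inr one_ne_zero)
    have h1 : WP.mk (graphVec q c x 1) h0 ∈ graphCurve q' c' := by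
      rw [← h]
      exact ⟨x, 1, h0, rfl⟩
    obtain ⟨x', y', h0', he⟩ := h1
    obtain ⟨t, ht, hh⟩ := (mk_eq_mk h0 h0').1 he
    have e0 := congrFun hh 0
    have e1 := congrFun hh 1
    have e2 := congrFun hh 2
    have e3 := congrFun hh 3
    simp [graphVec] at e0 e1 e2 e3
    subst e0 e1
    constructor
    · apply mul_left_cancel₀ (pow_ne_zero 2 ht)
      linear_combination -e2
    · apply mul_left_cancel₀ (pow_ne_zero 3 ht)
      linear_combination -e3
  have hq : Polynomial.C (q 0) * Polynomial.X ^ 2 + Polynomial.C (q 1) * Polynomial.X +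
      Polynomial.C (q 2) = Polynomial.C (q' 0) * Polynomial.X ^ 2 +
      Polynomial.C (q' 1) * Polynomial.X + Polynomial.C (q' 2) := by
    apply Polynomial.funext
    intro x
    simpa using (key x).1
  have hc : Polynomial.C (c 0) * Polynomial.X ^ 3 + Polynomial.C (c 1) * Polynomial.X ^ 2 +
      Polynomial.C (c 2) * Polynomial.X + Polynomial.C (c 3) =
      Polynomial.C (c' 0) * Polynomial.X ^ 3 + Polynomial.C (c' 1) * Polynomial.X ^ 2 +
      Polynomial.C (c' 2) * Polynomial.X + Polynomial.C (c' 3) := by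
    apply Polynomial.funext
    intro x
    simpa using (key x).2
  constructor
  · funext i
    have e0 := congrArg (fun p => Polynomial.coeff p 0) hq
    have e1 := congrArg (fun p => Polynomial.coeff p 1) hq
    have e2 := congrArg (fun p => Polynomial.coeff p 2) hq
    simp only [Polynomial.coeff_add, Polynomial.coeff_C_mul, Polynomial.coeff_X_pow,
      Polynomial.coeff_X, Polynomial.coeff_C] at e0 e1 e2
    norm_num at e0 e1 e2
    fin_cases i
    · exact e2
    · exact e1
    · exact e0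
  · funext i
    have e0 := congrArg (fun p => Polynomial.coeff p 0) hc
    have e1 := congrArg (fun p => Polynomial.coeff p 1) hc
    have e2 := congrArg (fun p => Polynomial.coeff p 2) hc
    have e3 := congrArg (fun p => Polynomial.coeff p 3) hc
    simp only [Polynomial.coeff_add, Polynomial.coeff_C_mul, Polynomial.coeff_X_pow,
      Polynomial.coeff_X, Polynomial.coeff_C] at e0 e1 e2 e3
    norm_num at e0 e1 e2 e3
    fin_cases i
    · exact e3
    · exact e2
    · exact e1
    · exact e0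

/-- The coefficients of `Q`. -/
def qq (u s : k) : Fin 3 → k := ![u ^ 2, u ^ 11, s]

/-- The coefficients of `C`. -/
def cc (u s r : k) : Fin 4 → k :=
  ![u ^ 3, u ^ 7 * s ^ 4 + u ^ 7 * s + u ^ 2 * s ^ 2, u ^ 11 * s ^ 2, r]

/-- The polynomial whose roots are the possible third coefficients of `Q`. -/
noncomputable def gp (u : k) : Polynomial k :=
  Polynomial.C (u ^ 14) * Polynomial.X ^ 8 + (Polynomial.C (u ^ 4) * Polynomial.X ^ 4 +
    Polynomial.C (u ^ 14) * Polynomial.X ^ 2 + Polynomial.C (u ^ 4) * Polynomial.X +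
    Polynomial.C (u ^ 9))

/-- The polynomial whose roots are the possible fourth coefficients of `C`. -/
noncomputable def hp (s : k) : Polynomial k :=
  Polynomial.X ^ 2 + (Polynomial.X + Polynomial.C (s ^ 3))

theorem gp_natDegree {u : k} (hu : u ≠ 0) : (gp u).natDegree = 8 := by
  have h1 : (Polynomial.C (u ^ 4) * Polynomial.X ^ 4 +
    Polynomial.C (u ^ 14) * Polynomial.X ^ 2 + Polynomial.C (u ^ 4) * Polynomial.X +
    Polynomial.C (u ^ 9) : Polynomial k).natDegree ≤ 4 := by compute_degree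
  unfold gp
  rw [Polynomial.natDegree_add_eq_left_of_natDegree_lt]
  · exact Polynomial.natDegree_C_mul_X_pow 8 _ (pow_ne_zero _ hu)
  · rw [Polynomial.natDegree_C_mul_X_pow 8 _ (pow_ne_zero _ hu)]
    omega

theorem gp_separable (h2 : (2 : k) = 0) {u : k} (hu : u ≠ 0) : (gp u).Separable := by
  have hd : Polynomial.derivative (gp u) = Polynomial.C (u ^ 4) := by
    have h2' : ((2 : ℕ) : k) = 0 := by exact_mod_cast h2
    have h4 : ((4 : ℕ) : k) = 0 := by push_cast; linear_combination 2 * h2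
    have h8 : ((8 : ℕ) : k) = 0 := by push_cast; linear_combination 4 * h2
    simp only [gp, Polynomial.derivative_add, Polynomial.derivative_C_mul,
      Polynomial.derivative_X_pow, Polynomial.derivative_C, Polynomial.derivative_X, h2', h4, h8,
      map_zero, zero_mul, mul_zero, add_zero, zero_add, mul_one]
  unfold Polynomial.Separable
  rw [hd]
  refine ⟨0, Polynomial.C ((u ^ 4)⁻¹), ?_⟩
  rw [zero_mul, zero_add, ← Polynomial.C_mul, inv_mul_cancel₀ (pow_ne_zero _ hu), map_one]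

theorem hp_natDegree (s : k) : (hp s).natDegree = 2 := by
  have h1 : (Polynomial.X + Polynomial.C (s ^ 3) : Polynomial k).natDegree = 1 :=
    Polynomial.natDegree_X_add_C _
  unfold hp
  rw [Polynomial.natDegree_add_eq_left_of_natDegree_lt]
  · exact Polynomial.natDegree_X_pow 2
  · rw [h1, Polynomial.natDegree_X_pow]
    omega

theorem hp_separable (h2 : (2 : k) = 0) (s : k) : (hp s).Separable := by
  have hd : Polynomial.derivative (hp s) = 1 := by
    have h2' : ((2 : ℕ) : k) = 0 := by exact_mod_cast h2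
    simp only [hp, Polynomial.derivative_add, Polynomial.derivative_X_pow,
      Polynomial.derivative_C, Polynomial.derivative_X, h2', map_zero, zero_mul, zero_add, add_zero]
  unfold Polynomial.Separable
  rw [hd]
  exact ⟨0, 1, by ring⟩

theorem card_roots_of_separable [IsAlgClosed k] [DecidableEq k] {p : Polynomial k}
    (hp : p.Separable) : p.roots.toFinset.card = p.natDegree := by
  rw [Multiset.toFinset_card_of_nodup (Polynomial.nodup_roots hp)]
  exact (Polynomial.splits_iff_card_roots.1 (IsAlgClosed.splits p))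

theorem mem_gp [DecidableEq k] {u s : k} (hu : u ≠ 0) :
    s ∈ (gp u).roots.toFinset ↔
      u ^ 14 * s ^ 8 + u ^ 4 * s ^ 4 + u ^ 14 * s ^ 2 + u ^ 4 * s + u ^ 9 = 0 := by
  have h0 : gp u ≠ 0 := by
    intro h
    have := gp_natDegree hu
    rw [h] at this
    simp at this
  rw [Multiset.mem_toFinset, Polynomial.mem_roots h0, Polynomial.IsRoot.def]
  simp only [gp, Polynomial.eval_add, Polynomial.eval_mul, Polynomial.eval_C,
    Polynomial.eval_pow, Polynomial.eval_X]
  constructor <;> intro h <;> linear_combination h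

theorem mem_hp [DecidableEq k] {s r : k} :
    r ∈ (hp s).roots.toFinset ↔ r ^ 2 + r + s ^ 3 = 0 := by
  have h0 : hp s ≠ 0 := by
    intro h
    have := hp_natDegree s
    rw [h] at this
    simp at this
  rw [Multiset.mem_toFinset, Polynomial.mem_roots h0, Polynomial.IsRoot.def]
  simp only [hp, Polynomial.eval_add, Polynomial.eval_C, Polynomial.eval_pow, Polynomial.eval_X]
  constructor <;> intro h <;> linear_combination h

theorem eqs_iff (h2 : (2 : k) = 0) (q : Fin 3 → k) (c : Fin 4 → k) :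
    Eqs q c ↔ ∃ u s r : k, u ^ 15 = 1 ∧
      u ^ 14 * s ^ 8 + u ^ 4 * s ^ 4 + u ^ 14 * s ^ 2 + u ^ 4 * s + u ^ 9 = 0 ∧
      r ^ 2 + r + s ^ 3 = 0 ∧ q = qq u s ∧ c = cc u s r := by
  constructor
  · rintro ⟨e1, e2, e3, e4, e5, e6, e7⟩
    have hq0 : q 0 ≠ 0 := by
      intro h
      rw [h] at e2
      simp at e2
    obtain ⟨u, hu⟩ : ∃ u, u = c 0 / q 0 := ⟨_, rfl⟩
    have hc0 : c 0 = u * q 0 := by rw [hu]; field_simp
    have hu2 : u ^ 2 = q 0 := by
      have : q 0 ^ 2 * (u ^ 2) = q 0 ^ 2 * q 0 := by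
        rw [hc0] at e1
        linear_combination e1 - q 0 ^ 3 * h2
      exact mul_left_cancel₀ (pow_ne_zero 2 hq0) this
    have hu0 : u ≠ 0 := by
      intro h
      rw [h] at hu2
      apply hq0
      rw [← hu2]
      ring
    have hq1 : q 1 * u ^ 4 = 1 := by
      rw [← hu2] at e2
      linear_combination e2 - h2
    have hc0' : c 0 = u ^ 3 := by rw [hc0, ← hu2]; ring
    have h15 : u ^ 15 = 1 := by
      have h3 : u ^ 3 = q 1 ^ 3 := by
        rw [hc0'] at e4
        linear_combination e4 - q 1 ^ 3 * h2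
      have h4 : q 1 ^ 3 * u ^ 12 = 1 := by
        have : q 1 ^ 3 * u ^ 12 = (q 1 * u ^ 4) ^ 3 := by ring
        rw [this, hq1, one_pow]
      rw [← h3] at h4
      linear_combination h4
    have hq1' : q 1 = u ^ 11 := by
      linear_combination u ^ 11 * hq1 - q 1 * h15
    have hc2 : c 2 = u ^ 11 * q 2 ^ 2 := by
      rw [hq1'] at e6
      linear_combination e6 - u ^ 11 * q 2 ^ 2 * h2
    have hc1 : c 1 = u ^ 7 * q 2 ^ 4 + u ^ 7 * q 2 + u ^ 2 * q 2 ^ 2 := by
      rw [hq1', hc2, ← hu2] at e5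
      linear_combination e5 - (u ^ 7 * q 2 ^ 4 + u ^ 7 * q 2) * h15 -
        (u ^ 7 * q 2 ^ 4 + u ^ 7 * q 2 + u ^ 2 * q 2 ^ 2) * h2
    refine ⟨u, q 2, c 3, h15, ?_, e7, ?_, ?_⟩
    · rw [hq1', hc1, ← hu2] at e3
      linear_combination e3 - u ^ 9 * h15 - (u ^ 14 * q 2 ^ 5 + u ^ 9 * q 2 ^ 6 + u ^ 9 * q 2 ^ 3) * h2
    · funext i
      fin_cases i
      · exact hu2.symm
      · exact hq1'
      · rfl
    · funext i
      fin_cases i
      · exact hc0'
      · exact hc1
      · exact hc2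
      · rfl
  · rintro ⟨u, s, r, h15, hg, hr, rfl, rfl⟩
    unfold Eqs
    simp only [qq, cc, Matrix.cons_val_zero, Matrix.cons_val_one, Matrix.cons_val]
    refine ⟨?_, ?_, ?_, ?_, ?_, ?_, ?_⟩
    · linear_combination u ^ 6 * h2
    · linear_combination h15 + h2
    · linear_combination hg + u ^ 9 * h15 +
        (u ^ 14 * s ^ 5 + u ^ 9 * s ^ 6 + u ^ 9 * s ^ 3) * h2
    · linear_combination (u ^ 18 + u ^ 3) * h15 + u ^ 3 * h2
    · linear_combination (u ^ 7 * s ^ 4 + u ^ 7 * s) * h15 +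
        (u ^ 7 * s ^ 4 + u ^ 7 * s + u ^ 2 * s ^ 2) * h2
    · linear_combination u ^ 11 * s ^ 2 * h2
    · exact hr

/-- The point `(1 : 0 : u² : u³)`. -/
def pt (u : k) : WP k := WP.mk ![1, 0, u ^ 2, u ^ 3] (by
  intro h
  have := congrFun h 0
  simp at this)

theorem pt_mem_graphCurve (u : k) (q : Fin 3 → k) (c : Fin 4 → k) :
    pt u ∈ graphCurve q c ↔ q 0 = u ^ 2 ∧ c 0 = u ^ 3 := by
  constructor
  · rintro ⟨x, y, h, he⟩
    obtain ⟨t, ht, hh⟩ := (mk_eq_mk _ _).1 he
    have e0 := congrFun hh 0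
    have e1 := congrFun hh 1
    have e2 := congrFun hh 2
    have e3 := congrFun hh 3
    simp [graphVec] at e0 e1 e2 e3
    subst e0 e1
    constructor
    · apply mul_left_cancel₀ (pow_ne_zero 2 ht)
      linear_combination e2
    · apply mul_left_cancel₀ (pow_ne_zero 3 ht)
      linear_combination e3
  · rintro ⟨h1, h2⟩
    refine ⟨1, 0, graphVec_ne_zero q c 1 0 (Or.inl one_ne_zero), ?_⟩
    refine (mk_eq_mk _ _).2 ⟨1, one_ne_zero, ?_⟩
    funext i
    fin_cases i <;> simp [graphVec, h1, h2]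

theorem pt_injective {u u' : k} (hu : u ≠ 0) (h : pt u = pt u') : u = u' := by
  obtain ⟨t, ht, hh⟩ := (mk_eq_mk _ _).1 h
  have e0 := congrFun hh 0
  have e2 := congrFun hh 2
  have e3 := congrFun hh 3
  simp at e0 e2 e3
  subst e0
  rw [one_pow, one_mul] at e2 e3
  apply mul_left_cancel₀ (pow_ne_zero 2 hu)
  linear_combination u' * e2 - e3

theorem pt_mem_zeroLocus (h2 : (2 : k) = 0) (u : k) : pt u ∈ zeroLocus (sextic k) := by
  unfold pt
  rw [mk_mem_zeroLocus, eval_sextic]
  simp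
  linear_combination u ^ 6 * h2

open Classical in
/-- The parameters of the exceptional curves through the point `pt u`. -/
noncomputable def TT (u : k) : Finset (Σ _ : k, k) :=
  (gp u).roots.toFinset.sigma fun s => (hp s).roots.toFinset

theorem card_TT [IsAlgClosed k] (h2 : (2 : k) = 0) {u : k} (hu : u ≠ 0) :
    (TT u).card = 16 := by
  classical
  unfold TT
  rw [Finset.card_sigma]
  have h1 : ∀ s ∈ (gp u).roots.toFinset, (hp s).roots.toFinset.card = 2 := by
    intro s _
    rw [card_roots_of_separable (hp_separable h2 s), hp_natDegree]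
  have h3 : (gp u).roots.toFinset.card = 8 := by
    rw [card_roots_of_separable (gp_separable h2 hu), gp_natDegree hu]
  convert Finset.sum_const_nat h1 using 1
  · rw [h3]

theorem exceptional_iff [Infinite k] (h2 : (2 : k) = 0) (E : Set (WP k)) :
    IsExceptional (sextic k) E ↔ ∃ u s r : k, u ^ 15 = 1 ∧
      u ^ 14 * s ^ 8 + u ^ 4 * s ^ 4 + u ^ 14 * s ^ 2 + u ^ 4 * s + u ^ 9 = 0 ∧
      r ^ 2 + r + s ^ 3 = 0 ∧ E = graphCurve (qq u s) (cc u s r) := by
  constructor
  · rintro ⟨⟨q, c, rfl⟩, h⟩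
    rw [graphCurve_subset h2, eqs_iff h2] at h
    obtain ⟨u, s, r, h1, h3, h4, rfl, rfl⟩ := h
    exact ⟨u, s, r, h1, h3, h4, rfl⟩
  · rintro ⟨u, s, r, h1, h3, h4, rfl⟩
    refine ⟨⟨_, _, rfl⟩, ?_⟩
    rw [graphCurve_subset h2, eqs_iff h2]
    exact ⟨u, s, r, h1, h3, h4, rfl, rfl⟩

theorem params_injective [Infinite k] {u s r u' s' r' : k} (hu : u ≠ 0)
    (h : graphCurve (qq u s) (cc u s r) = graphCurve (qq u' s') (cc u' s' r')) :
    u = u' ∧ s = s' ∧ r = r' := by
  obtain ⟨h1, h2⟩ := graphCurve_injective h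
  have e0 := congrFun h1 0
  have e2 := congrFun h1 2
  have f0 := congrFun h2 0
  have f3 := congrFun h2 3
  simp [qq, cc] at e0 e2 f0 f3
  refine ⟨?_, e2, f3⟩
  apply mul_left_cancel₀ (pow_ne_zero 2 hu)
  linear_combination f0 - u' * e0

theorem ne_zero_of_pow {u : k} (h : u ^ 15 = 1) : u ≠ 0 := by
  rintro rfl
  simp at h

theorem isEckardt_pt [IsAlgClosed k] (h2 : (2 : k) = 0) {u : k} (h15 : u ^ 15 = 1) :
    IsEckardt (sextic k) (pt u) := by
  classical
  have hu := ne_zero_of_pow h15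
  have : Infinite k := IsAlgClosed.instInfinite
  refine ⟨pt_mem_zeroLocus h2 u, ?_⟩
  have hset : {E : Set (WP k) | IsExceptional (sextic k) E ∧ pt u ∈ E} =
      ((TT u).image fun p => graphCurve (qq u p.1) (cc u p.1 p.2) : Finset (Set (WP k))) := by
    ext E
    simp only [Set.mem_ofPred_eq, Finset.coe_image, Set.mem_image, Finset.mem_coe]
    constructor
    · rintro ⟨h, hp⟩
      rw [exceptional_iff h2] at h
      obtain ⟨u', s, r, h1, h3, h4, rfl⟩ := h
      rw [pt_mem_graphCurve] at hp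
      have e0 : u' ^ 2 = u ^ 2 := hp.1
      have e1 : u' ^ 3 = u ^ 3 := hp.2
      have : u' = u := by
        apply mul_left_cancel₀ (pow_ne_zero 2 hu)
        linear_combination e1 - u' * e0
      subst this
      refine ⟨⟨s, r⟩, ?_, rfl⟩
      unfold TT
      rw [Finset.mem_sigma]
      exact ⟨(mem_gp hu).2 h3, mem_hp.2 h4⟩
    · rintro ⟨⟨s, r⟩, h, rfl⟩
      unfold TT at h
      rw [Finset.mem_sigma] at h
      refine ⟨(exceptional_iff h2 _).2 ⟨u, s, r, h15, (mem_gp hu).1 h.1, mem_hp.1 h.2, rfl⟩, ?_⟩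
      rw [pt_mem_graphCurve]
      exact ⟨rfl, rfl⟩
  rw [hset, Set.ncard_coe_finset, Finset.card_image_of_injOn, card_TT h2 hu]
  rintro ⟨s, r⟩ _ ⟨s', r'⟩ _ h
  obtain ⟨_, h1, h3⟩ := params_injective hu h
  simp only at h1 h3
  subst h1 h3
  rfl

theorem card_nthRoots [IsAlgClosed k] [DecidableEq k] (h2 : (2 : k) = 0) :
    (Polynomial.nthRoots 15 (1 : k)).toFinset.card = 15 := by
  have hsep : (Polynomial.X ^ 15 - Polynomial.C (1 : k)).Separable := by
    apply Polynomial.separable_X_pow_sub_C 1 _ one_ne_zero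
    intro h
    have h1 : (1 : k) = 0 := by
      push_cast at h
      linear_combination h - 7 * h2
    exact one_ne_zero h1
  have := card_roots_of_separable hsep
  rw [Polynomial.natDegree_X_pow_sub_C] at this
  exact this

theorem mem_nthRoots [DecidableEq k] (u : k) :
    u ∈ (Polynomial.nthRoots 15 (1 : k)).toFinset ↔ u ^ 15 = 1 := by
  rw [Multiset.mem_toFinset, Polynomial.mem_nthRoots (by norm_num)]

theorem ncard_exceptional [IsAlgClosed k] (h2 : (2 : k) = 0) :
    {E : Set (WP k) | IsExceptional (sextic k) E}.ncard = 240 := by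
  classical
  have : Infinite k := IsAlgClosed.instInfinite
  have hset : {E : Set (WP k) | IsExceptional (sextic k) E} =
      (((Polynomial.nthRoots 15 (1 : k)).toFinset.sigma fun u => TT u).image
        fun p => graphCurve (qq p.1 p.2.1) (cc p.1 p.2.1 p.2.2) : Finset (Set (WP k))) := by
    ext E
    simp only [Set.mem_ofPred_eq, Finset.coe_image, Set.mem_image, Finset.mem_coe]
    rw [exceptional_iff h2]
    constructor
    · rintro ⟨u, s, r, h1, h3, h4, rfl⟩
      refine ⟨⟨u, ⟨s, r⟩⟩, ?_, rfl⟩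
      rw [Finset.mem_sigma]
      refine ⟨(mem_nthRoots u).2 h1, ?_⟩
      unfold TT
      rw [Finset.mem_sigma]
      exact ⟨(mem_gp (ne_zero_of_pow h1)).2 h3, mem_hp.2 h4⟩
    · rintro ⟨⟨u, ⟨s, r⟩⟩, h, rfl⟩
      rw [Finset.mem_sigma] at h
      have h1 := (mem_nthRoots u).1 h.1
      have h3 := h.2
      unfold TT at h3
      rw [Finset.mem_sigma] at h3
      exact ⟨u, s, r, h1, (mem_gp (ne_zero_of_pow h1)).1 h3.1, mem_hp.1 h3.2, rfl⟩
  rw [hset, Set.ncard_coe_finset, Finset.card_image_of_injOn, Finset.card_sigma]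
  · have h1 : ∀ u ∈ (Polynomial.nthRoots 15 (1 : k)).toFinset, (TT u).card = 16 := by
      intro u hu
      exact card_TT h2 (ne_zero_of_pow ((mem_nthRoots u).1 hu))
    rw [Finset.sum_const_nat h1, card_nthRoots h2]
  · rintro ⟨u, ⟨s, r⟩⟩ h ⟨u', ⟨s', r'⟩⟩ _ he
    have h0 := Finset.mem_coe.1 h
    rw [Finset.mem_sigma] at h0
    obtain ⟨h1, h3, h4⟩ := params_injective (ne_zero_of_pow ((mem_nthRoots u).1 h0.1)) he
    simp only at h1 h3 h4
    subst h1 h3 h4
    rfl

theorem isDelPezzoOne (h2 : (2 : k) = 0) : IsDelPezzoOne (sextic k) := by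
  refine ⟨?_, ?_, ?_, ?_⟩
  · unfold sextic
    have hX : ∀ i : Fin 4, IsWeightedHomogeneous (![1, 1, 2, 3] : Fin 4 → ℕ)
        (X i : MvPolynomial (Fin 4) k) ((![1, 1, 2, 3] : Fin 4 → ℕ) i) := fun i =>
      isWeightedHomogeneous_X k _ i
    refine ((IsWeightedHomogeneous.add ?_ ?_).add ?_).add ?_
    · exact (hX 3).pow 2
    · exact ((hX 1).pow 3).mul (hX 3)
    · exact (hX 2).pow 3
    · exact ((hX 0).pow 5).mul (hX 1)
  · rw [eval_sextic]
    simp
  · rw [eval_sextic]
    simp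
  · intro v hv h0
    by_contra hcon
    push Not at hcon
    have d1 := hcon 1
    have d2 := hcon 2
    have d3 := hcon 3
    simp [sextic, pderiv_X, Derivation.leibniz_pow] at d1 d2 d3
    have h3 : (3 : k) ≠ 0 := by
      intro h
      have : (1 : k) = 0 := by linear_combination h - h2
      exact one_ne_zero this
    have v1 : v 1 = 0 := by
      rw [h2, zero_mul, zero_add] at d3
      exact pow_eq_zero_iff (by norm_num) |>.1 d3
    have v2 : v 2 = 0 := d2.resolve_left h3
    have v0 : v 0 = 0 := by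
      rw [v1] at d1
      apply pow_eq_zero_iff (n := 5) (by norm_num) |>.1
      linear_combination d1
    have v3 : v 3 = 0 := by
      rw [eval_sextic, v0, v1, v2] at h0
      apply pow_eq_zero_iff (n := 2) (by norm_num) |>.1
      linear_combination h0
    apply hv
    funext i
    fin_cases i
    · exact v0
    · exact v1
    · exact v2
    · exact v3

end aux

/-- **Main result.** Let `k` be an algebraically closed field of characteristic two. The sextic
`w² + y³ w + z³ + x⁵ y = 0` in `P(1, 1, 2, 3)` is a del Pezzo surface of degree one over `k`. It has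
exactly `240` exceptional curves and there are fifteen points which are generalized Eckardt
points of it. -/
theorem result (k : Type*) [Field k] [IsAlgClosed k] [CharP k 2] :
    IsDelPezzoOne (sextic k) ∧
    {E : Set (WP k) | IsExceptional (sextic k) E}.ncard = 240 ∧
    ∃ S : Finset (WP k), S.card = 15 ∧ ∀ P ∈ S, IsEckardt (sextic k) P := by
  classical
  have h2 : (2 : k) = 0 := by
    have := CharP.cast_eq_zero k 2
    exact_mod_cast this
  refine ⟨isDelPezzoOne h2, ncard_exceptional h2,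
    (Polynomial.nthRoots 15 (1 : k)).toFinset.image pt, ?_, ?_⟩
  · rw [Finset.card_image_of_injOn, card_nthRoots h2]
    intro u hu u' _ h
    exact pt_injective (ne_zero_of_pow ((mem_nthRoots u).1 (Finset.mem_coe.1 hu))) h
  · intro P hP
    rw [Finset.mem_image] at hP
    obtain ⟨u, hu, rfl⟩ := hP
    exact isEckardt_pt h2 ((mem_nthRoots u).1 hu)

end Pool.Agent.Results.MP_3c244b_ag.EckardtPoints
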